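import Mathlib

namespace Pool.Agent.H.MP_a7dadb_al

/-- `r` has an inner inverse which is a unit. -/
def UR {R : Type*} [Ring R] (r : R) : Prop := ∃ u v : R, u * v = 1 ∧ v * u = 1 ∧ r * u * r = r

lemma mat_ur {F m : Type*} [Field F] [Fintype m] [DecidableEq m] (M : Matrix m m F) : UR M := by
  obtain ⟨V, U, e, ⟨V, rfl⟩, ⟨U, rfl⟩, h⟩ := Matrix.exists_rank_normal_form M
  have h2 : (V * M * U) * (V * M * U) = V * M * U := by
    rw [h, Matrix.submatrix_mul_equiv, Matrix.fromBlocks_multiply]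
    simp
  refine ⟨U * V, (V⁻¹ : _ˣ) * (U⁻¹ : _ˣ), ?_, ?_, ?_⟩
  · rw [mul_assoc, Units.mul_inv_cancel_left, Units.mul_inv]
  · rw [mul_assoc, Units.inv_mul_cancel_left, Units.inv_mul]
  · have := congrArg (fun z => ((V⁻¹ : _ˣ) : Matrix m m F) * z * (U⁻¹ : _ˣ)) h2
    simpa only [mul_assoc, Units.inv_mul_cancel_left, Units.mul_inv, mul_one] using this

lemma UR.map {R S : Type*} [Ring R] [Ring S] (f : R →+* S) {r : R} (h : UR r) : UR (f r) := by
  obtain ⟨u, v, h1, h2, h3⟩ := h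
  exact ⟨f u, f v, by rw [← map_mul, h1, map_one], by rw [← map_mul, h2, map_one],
    by rw [← map_mul, ← map_mul, h3]⟩

lemma end_ur {F V : Type*} [Field F] [AddCommGroup V] [Module F V] [FiniteDimensional F V]
    (r : Module.End F V) : UR r := by
  let b := Module.finBasis F V
  have := (mat_ur (LinearMap.toMatrixAlgEquiv b r)).map
    (LinearMap.toMatrixAlgEquiv b).symm.toRingEquiv.toRingHom
  simpa using this

section A

variable {F U X : Type*} [Field F] [Ring U] [Algebra F U] [AddCommGroup X] [Module F X]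
  (T : X →ₗ[F] X →ₗ[F] U) (B : X →ₗ[F] X →ₗ[F] F)

def Sys (e : U) : Prop := ∃ (d : ℕ) (x y : Fin d → X),
  (∀ i j, B (y i) (x j) = if i = j then 1 else 0) ∧ e = ∑ i, T (x i) (y i)

def J : Submodule F U := Submodule.span F {u | ∃ x y, u = T x y}

variable {T B} (hT : ∀ x y x' y', T x y * T x' y' = B y x' • T x y')
  (n1 : ∀ x, (∀ y, T x y = 0) ∨ ∃ y, B y x = 1) (n2 : ∀ y, (∀ x, T x y = 0) ∨ ∃ x, B y x = 1)

lemma T_mem (x y : X) : T x y ∈ J T := Submodule.subset_span ⟨x, y, rfl⟩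

include hT in
lemma add_sys {d : ℕ} {x y : Fin d → X} (h : ∀ i j, B (y i) (x j) = if i = j then 1 else 0)
    {z w : X} (h1 : ∀ i, B (y i) z = 0) (h2 : ∀ i, B w (x i) = 0) (h3 : B w z = 1) :
    Sys T B (∑ i, T (x i) (y i) + T z w) ∧
      (∑ i, T (x i) (y i) + T z w) * ∑ i, T (x i) (y i) = ∑ i, T (x i) (y i) ∧
      (∑ i, T (x i) (y i)) * (∑ i, T (x i) (y i) + T z w) = ∑ i, T (x i) (y i) := by
  have ee : (∑ i, T (x i) (y i)) * ∑ i, T (x i) (y i) = ∑ i, T (x i) (y i) := by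
    simp [Finset.sum_mul, Finset.mul_sum, hT, h]
  refine ⟨⟨d + 1, Fin.cons z x, Fin.cons w y, fun i j => ?_, ?_⟩, ?_, ?_⟩
  · refine Fin.cases ?_ (fun i => ?_) i <;> refine Fin.cases ?_ (fun j => ?_) j
    · simpa using h3
    · simp [h2, (Fin.succ_ne_zero j).symm]
    · simp [h1, Fin.succ_ne_zero i]
    · simp [h]
  · rw [Fin.sum_univ_succ, add_comm]; simp
  · rw [add_mul, ee, Finset.mul_sum]; simp [hT, h2]
  · rw [mul_add, ee, Finset.sum_mul]; simp [hT, h1]

include hT n1 in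
lemma extL {e : U} (he : Sys T B e) (z : X) :
    ∃ e', Sys T B e' ∧ e' * e = e ∧ e * e' = e ∧ ∀ w, e' * T z w = T z w := by
  obtain ⟨d, x, y, h, rfl⟩ := he
  have hz : ∀ w, (∑ i, T (x i) (y i)) * T z w = T (∑ i, B (y i) z • x i) w := fun w => by
    simp [Finset.sum_mul, hT, LinearMap.sum_apply]
  rcases n1 (z - ∑ i, B (y i) z • x i) with h0 | ⟨y0, h0⟩
  · refine ⟨_, ⟨d, x, y, h, rfl⟩, ?_, ?_, fun w => ?_⟩
    · simp [Finset.sum_mul, Finset.mul_sum, hT, h]
    · simp [Finset.sum_mul, Finset.mul_sum, hT, h]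
    · have := h0 w
      rw [map_sub, LinearMap.sub_apply, sub_eq_zero] at this
      rw [hz, ← this]
  · have h1 : ∀ i, B (y i) (z - ∑ i, B (y i) z • x i) = 0 := fun i => by simp [h]
    have h2 : ∀ i, B (y0 - ∑ i, B y0 (x i) • y i) (x i) = 0 := fun i => by
      simp [h, LinearMap.sum_apply]
    have h3 : B (y0 - ∑ i, B y0 (x i) • y i) (z - ∑ i, B (y i) z • x i) = 1 := by
      rw [map_sub B, LinearMap.sub_apply, h0, map_sum B, LinearMap.sum_apply]
      simp only [map_smul, LinearMap.smul_apply, h1, smul_zero, Finset.sum_const_zero, sub_zero]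
    obtain ⟨a, b, c⟩ := add_sys hT h h1 h2 h3
    refine ⟨_, a, b, c, fun w => ?_⟩
    have h4 : B (y0 - ∑ i, B y0 (x i) • y i) z = 1 := by
      rw [← h3, map_sub (B _), map_sum (B _)]
      simp only [map_smul, h2, smul_zero, Finset.sum_const_zero, sub_zero]
    rw [add_mul, hz, hT, h4, one_smul, map_sub T, LinearMap.sub_apply, add_sub_cancel]

include hT n2 in
lemma extR {e : U} (he : Sys T B e) (z : X) :
    ∃ e', Sys T B e' ∧ e' * e = e ∧ e * e' = e ∧ ∀ w, T w z * e' = T w z := by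
  obtain ⟨d, x, y, h, rfl⟩ := he
  have hz : ∀ w, T w z * (∑ i, T (x i) (y i)) = T w (∑ i, B z (x i) • y i) := fun w => by
    simp [Finset.mul_sum, hT]
  rcases n2 (z - ∑ i, B z (x i) • y i) with h0 | ⟨x0, h0⟩
  · refine ⟨_, ⟨d, x, y, h, rfl⟩, ?_, ?_, fun w => ?_⟩
    · simp [Finset.sum_mul, Finset.mul_sum, hT, h]
    · simp [Finset.sum_mul, Finset.mul_sum, hT, h]
    · have := h0 w
      rw [map_sub, sub_eq_zero] at this
      rw [hz, ← this]
  · have h1 : ∀ i, B (y i) (x0 - ∑ i, B (y i) x0 • x i) = 0 := fun i => by simp [h]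
    have h2 : ∀ i, B (z - ∑ i, B z (x i) • y i) (x i) = 0 := fun i => by
      simp [h, LinearMap.sum_apply]
    have h3 : B (z - ∑ i, B z (x i) • y i) (x0 - ∑ i, B (y i) x0 • x i) = 1 := by
      rw [map_sub (B _), h0, map_sum (B _)]
      simp only [map_smul, h2, smul_zero, Finset.sum_const_zero, sub_zero]
    obtain ⟨a, b, c⟩ := add_sys hT h h1 h2 h3
    refine ⟨_, a, b, c, fun w => ?_⟩
    have h4 : B z (x0 - ∑ i, B (y i) x0 • x i) = 1 := by
      rw [← h3, map_sub B, LinearMap.sub_apply, map_sum B, LinearMap.sum_apply]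
      simp only [map_smul, LinearMap.smul_apply, h1, smul_zero, Finset.sum_const_zero, sub_zero]
    rw [mul_add, hz, hT, h4, one_smul, map_sub (T w), add_sub_cancel]

include hT n1 n2 in
lemma loc {j : U} (hj : j ∈ J T) : ∀ e, Sys T B e →
    ∃ e', Sys T B e' ∧ e' * e = e ∧ e * e' = e ∧ e' * j = j ∧ j * e' = j := by
  induction hj using Submodule.span_induction with
  | mem u hu =>
    obtain ⟨x, y, rfl⟩ := hu
    intro e he
    obtain ⟨e1, s1, a1, b1, c1⟩ := extL hT n1 he x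
    obtain ⟨e2, s2, a2, b2, c2⟩ := extR hT n2 s1 y
    refine ⟨e2, s2, ?_, ?_, ?_, c2 x⟩
    · rw [← a1, ← mul_assoc, a2]
    · rw [← b1, mul_assoc, b2]
    · rw [← c1, ← mul_assoc, a2]
  | zero =>
    intro e he
    have ee : e * e = e := by
      obtain ⟨d, x, y, h, rfl⟩ := he
      simp [Finset.sum_mul, Finset.mul_sum, hT, h]
    exact ⟨e, he, ee, ee, by simp, by simp⟩
  | add u v _ _ iu iv =>
    intro e he
    obtain ⟨e1, s1, a1, b1, c1, d1⟩ := iu e he
    obtain ⟨e2, s2, a2, b2, c2, d2⟩ := iv e1 s1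
    refine ⟨e2, s2, ?_, ?_, ?_, ?_⟩
    · rw [← a1, ← mul_assoc, a2]
    · rw [← b1, mul_assoc, b2]
    · rw [mul_add, c2, ← c1, ← mul_assoc, a2]
    · rw [add_mul, d2, ← d1, mul_assoc, b2]
  | smul c u _ iu =>
    intro e he
    obtain ⟨e1, s1, a1, b1, c1, d1⟩ := iu e he
    exact ⟨e1, s1, a1, b1, by rw [mul_smul_comm, c1], by rw [smul_mul_assoc, d1]⟩

include hT in
lemma mid {j : U} (hj : j ∈ J T) (y x' : X) : ∃ c : F, ∀ x y', T x y * j * T x' y' = c • T x y' := by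
  induction hj using Submodule.span_induction with
  | mem u hu =>
    obtain ⟨p, q, rfl⟩ := hu
    exact ⟨B y p * B q x', fun x y' => by rw [hT, smul_mul_assoc, hT, smul_smul]⟩
  | zero => exact ⟨0, by simp⟩
  | add u v _ _ iu iv =>
    obtain ⟨c, hc⟩ := iu
    obtain ⟨d, hd⟩ := iv
    exact ⟨c + d, fun x y' => by rw [mul_add, add_mul, hc, hd, add_smul]⟩
  | smul a u _ iu =>
    obtain ⟨c, hc⟩ := iu
    exact ⟨a * c, fun x y' => by rw [mul_smul_comm, smul_mul_assoc, hc, smul_smul]⟩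

include hT n1 n2 in
theorem lemA {j : U} (hj : j ∈ J T) (c : U) (hc : c = 0 ∨ c = 1) : ∃ u v : U, u - 1 ∈ J T ∧
    v - 1 ∈ J T ∧ u * v = 1 ∧ v * u = 1 ∧ (c + j) * u * (c + j) = c + j := by
  obtain ⟨e, ⟨d, x, y, h, he⟩, -, -, h1, h2⟩ := loc hT n1 n2 hj 0 ⟨0, ![], ![], by simp, by simp⟩
  let θ : Matrix (Fin d) (Fin d) F → U := fun C => ∑ a, ∑ b, C a b • T (x a) (y b)
  have tm : ∀ C D, θ C * θ D = θ (C * D) := fun C D => by
    have k : ∀ a b, T (x a) (y b) * θ D = ∑ f, D b f • T (x a) (y f) := fun a b => by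
      simp only [θ, Finset.mul_sum, mul_smul_comm, hT, h, smul_smul, mul_ite, mul_one, mul_zero,
        ite_smul, zero_smul]
      rw [Finset.sum_comm]
      simp
    show (∑ a, ∑ b, C a b • T (x a) (y b)) * θ D = ∑ a, ∑ b, (C * D) a b • T (x a) (y b)
    simp only [Finset.sum_mul, smul_mul_assoc, k, Matrix.mul_apply, Finset.sum_smul,
      Finset.smul_sum, smul_smul]
    exact Finset.sum_congr rfl fun a _ => Finset.sum_comm
  have t1 : θ 1 = e := by simp [θ, he, Matrix.one_apply]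
  have ta : ∀ C D, θ (C + D) = θ C + θ D := fun C D => by
    simp [θ, add_smul, Finset.sum_add_distrib]
  have tJ : ∀ C, θ C ∈ J T := fun C =>
    sum_mem fun a _ => sum_mem fun b _ => Submodule.smul_mem _ _ (T_mem _ _)
  choose cc hcc using fun a b => mid hT hj (y a) (x b)
  have tj : j = θ (Matrix.of cc) := by
    conv_lhs => rw [← h2, ← h1, he]
    simp only [Finset.sum_mul, Finset.mul_sum, hcc, θ, Matrix.of_apply]
    exact Finset.sum_comm
  have l1 : ∀ C, (1 - e) * θ C = 0 := fun C => by rw [sub_mul, ← t1, tm, one_mul, one_mul, sub_self]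
  have l2 : ∀ C, θ C * (1 - e) = 0 := fun C => by rw [mul_sub, ← t1, tm, mul_one, mul_one, sub_self]
  have l3 : (1 - e) * (1 - e) = 1 - e := by
    rw [mul_sub, mul_one]; nth_rewrite 3 [← t1]; rw [l1, sub_zero]
  have mm : ∀ C D, (1 - e + θ C) * (1 - e + θ D) = 1 - e + θ (C * D) := fun C D => by
    rw [add_mul, mul_add, mul_add, l1, l2, l3, tm, add_zero, zero_add]
  have uJ : ∀ C, 1 - e + θ C - 1 ∈ J T := fun C => by
    rw [show 1 - e + θ C - 1 = θ C - e by abel, ← t1]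
    exact sub_mem (tJ _) (tJ _)
  rcases hc with rfl | rfl
  · obtain ⟨D, D', a, b, c⟩ := mat_ur (Matrix.of cc)
    refine ⟨1 - e + θ D, 1 - e + θ D', uJ _, uJ _, by rw [mm, a, t1, sub_add_cancel],
      by rw [mm, b, t1, sub_add_cancel], ?_⟩
    rw [zero_add, tj, mul_add, l2, zero_add, tm, tm, c]
  · obtain ⟨D, D', a, b, c⟩ := mat_ur (1 + Matrix.of cc)
    refine ⟨1 - e + θ D, 1 - e + θ D', uJ _, uJ _, by rw [mm, a, t1, sub_add_cancel],
      by rw [mm, b, t1, sub_add_cancel], ?_⟩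
    have : 1 + j = 1 - e + θ (1 + Matrix.of cc) := by rw [ta, t1, ← tj]; abel
    rw [this, mm, mm, c]

end A

end Pool.Agent.H.MP_a7dadb_al
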