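import Pool.Agent.H.MP_a7dadb_al.A

namespace Pool.Agent.H.MP_a7dadb_al

open PowerSeries

variable {F U : Type*} [Field F] [Ring U] (J : AddSubgroup U) (ρ : F⟦X⟧ →+* U)

def Nm : Subring U where
  carrier := {r | ∀ j ∈ J, r * j ∈ J ∧ j * r ∈ J}
  mul_mem' := fun {a b} ha hb j hj =>
    ⟨by rw [mul_assoc]; exact (ha _ (hb j hj).1).1, by rw [← mul_assoc]; exact (hb _ (ha j hj).2).2⟩
  one_mem' := fun j hj => by simpa using hj
  add_mem' := fun {a b} ha hb j hj =>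
    ⟨by rw [add_mul]; exact add_mem (ha j hj).1 (hb j hj).1,
      by rw [mul_add]; exact add_mem (ha j hj).2 (hb j hj).2⟩
  zero_mem' := fun j hj => by simp
  neg_mem' := fun {a} ha j hj =>
    ⟨by rw [neg_mul]; exact neg_mem (ha j hj).1, by rw [mul_neg]; exact neg_mem (ha j hj).2⟩

def SS (hρ : ∀ h, ρ h ∈ Nm J) : Subring U where
  carrier := {r | r ∈ Nm J ∧ ∃ (k : ℕ) (h : F⟦X⟧), ρ (X ^ k) * r - ρ h ∈ J}
  mul_mem' := by
    rintro a b ⟨ha, k, h, e⟩ ⟨hb, l, g, f⟩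
    refine ⟨mul_mem ha hb, l + k, h * g, ?_⟩
    have c : ρ (X ^ l) * ρ h = ρ h * ρ (X ^ l) := by rw [← map_mul, mul_comm, map_mul]
    have : ρ (X ^ (l + k)) * (a * b) - ρ (h * g) =
        ρ (X ^ l) * ((ρ (X ^ k) * a - ρ h) * b) + ρ h * (ρ (X ^ l) * b - ρ g) := by
      rw [pow_add, map_mul, map_mul, sub_mul, mul_sub, mul_sub, ← mul_assoc _ (ρ h), c]
      simp only [mul_assoc]
      abel
    rw [this]
    exact add_mem (hρ _ _ (hb _ e).2).1 (hρ _ _ f).1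
  one_mem' := ⟨one_mem _, 0, 1, by simp⟩
  add_mem' := by
    rintro a b ⟨ha, k, h, e⟩ ⟨hb, l, g, f⟩
    refine ⟨add_mem ha hb, l + k, X ^ l * h + X ^ k * g, ?_⟩
    have c : ρ (X ^ (l + k)) = ρ (X ^ k) * ρ (X ^ l) := by rw [← map_mul, ← pow_add, add_comm]
    have : ρ (X ^ (l + k)) * (a + b) - ρ (X ^ l * h + X ^ k * g) =
        ρ (X ^ l) * (ρ (X ^ k) * a - ρ h) + ρ (X ^ k) * (ρ (X ^ l) * b - ρ g) := by
      rw [mul_add]
      nth_rewrite 2 [c]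
      rw [pow_add, map_mul, map_add, map_mul, map_mul, mul_sub, mul_sub]
      simp only [mul_assoc]
      abel
    rw [this]
    exact add_mem (hρ _ _ e).1 (hρ _ _ f).1
  zero_mem' := ⟨zero_mem _, 0, 0, by simp⟩
  neg_mem' := by
    rintro a ⟨ha, k, h, e⟩
    refine ⟨neg_mem ha, k, -h, ?_⟩
    have := neg_mem e
    rwa [show -(ρ (X ^ k) * a - ρ h) = ρ (X ^ k) * -a - ρ (-h) by rw [map_neg, mul_neg]; abel]
      at this

theorem lemB (hρ : ∀ h, ρ h ∈ Nm J) (hJ : ∀ j ∈ J, j ∈ Nm J) (σ τ : U) (h1 : σ * τ = 1)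
    (h2 : τ * σ = 1) (h3 : σ - ρ X ∈ J) (h4 : τ ∈ Nm J)
    (L : ∀ j ∈ J, ∀ c : U, c = 0 ∨ c = 1 → ∃ u v : U, u - 1 ∈ J ∧ v - 1 ∈ J ∧ u * v = 1 ∧
      v * u = 1 ∧ (c + j) * u * (c + j) = c + j) (r : U) (hr : r ∈ SS J ρ hρ) :
    ∃ u ∈ SS J ρ hρ, ∃ v ∈ SS J ρ hρ, u * v = 1 ∧ v * u = 1 ∧ r * u * r = r := by
  have sN : σ ∈ Nm J := by
    have := add_mem (hJ _ h3) (hρ X)
    rwa [sub_add_cancel] at this
  have oS : ∀ u, u - 1 ∈ J → u ∈ SS J ρ hρ := fun u hu =>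
    ⟨by have := add_mem (hJ _ hu) (one_mem (Nm J)); rwa [sub_add_cancel] at this, 0, 1,
      by simpa using hu⟩
  have sS : σ ∈ SS J ρ hρ := ⟨sN, 0, X, by simpa using h3⟩
  have tS : τ ∈ SS J ρ hρ := ⟨h4, 1, 1, by
    have := neg_mem (h4 _ h3).2
    rwa [sub_mul, h1, neg_sub, ← map_one ρ, ← pow_one X] at this⟩
  have rS : ∀ h, ρ h ∈ SS J ρ hρ := fun h => ⟨hρ h, 0, h, by simp⟩
  have pw : ∀ k : ℕ, σ ^ k - ρ (X ^ k) ∈ J := fun k => by
    induction k with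
    | zero => simp
    | succ k ih =>
      have : σ ^ (k + 1) - ρ (X ^ (k + 1)) = σ ^ k * (σ - ρ X) + (σ ^ k - ρ (X ^ k)) * ρ X := by
        rw [pow_succ, pow_succ, map_mul, mul_sub, sub_mul]; abel
      rw [this]
      exact add_mem (pow_mem sN k _ h3).1 (hρ _ _ ih).2
  have p1 : ∀ k : ℕ, σ ^ k * τ ^ k = 1 := fun k => by
    rw [← (Commute.mul_pow (h1.trans h2.symm)), h1, one_pow]
  have p2 : ∀ k : ℕ, τ ^ k * σ ^ k = 1 := fun k => by
    rw [← (Commute.mul_pow (h2.trans h1.symm)), h2, one_pow]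
  have p1' : ∀ (k : ℕ) z, σ ^ k * (τ ^ k * z) = z := fun k z => by rw [← mul_assoc, p1, one_mul]
  have p2' : ∀ (k : ℕ) z, τ ^ k * (σ ^ k * z) = z := fun k z => by rw [← mul_assoc, p2, one_mul]
  obtain ⟨hN, k, h, e⟩ := hr
  have e' : σ ^ k * r - ρ h ∈ J := by
    have := add_mem (hN _ (pw k)).2 e
    rwa [sub_mul, sub_add_sub_cancel] at this
  by_cases h0 : h = 0
  · rw [h0, map_zero, sub_zero] at e'
    have := (pow_mem h4 k _ e').1
    rw [p2'] at this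
    obtain ⟨u, v, a, b, c, d, f⟩ := L r this 0 (Or.inl rfl)
    exact ⟨u, oS u a, v, oS v b, c, d, by simpa using f⟩
  · obtain ⟨l, w, rfl⟩ := IsDiscreteValuationRing.eq_unit_mul_pow_irreducible h0 X_irreducible
    have q1 : ∀ z, ρ w * (ρ (w⁻¹ : _ˣ) * z) = z := fun z => by
      rw [← mul_assoc, ← map_mul, Units.mul_inv, map_one, one_mul]
    have q2 : ∀ z, ρ (w⁻¹ : _ˣ) * (ρ w * z) = z := fun z => by
      rw [← mul_assoc, ← map_mul, Units.inv_mul, map_one, one_mul]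
    have e2 : σ ^ k * r - ρ w * σ ^ l ∈ J := by
      have := sub_mem e' (hρ w _ (pw l)).1
      rwa [mul_sub, map_mul, sub_sub_sub_cancel_right] at this
    have e3 : τ ^ l * (ρ (w⁻¹ : _ˣ) * (σ ^ k * r)) - 1 ∈ J := by
      have := (pow_mem h4 l _ (hρ (w⁻¹ : _ˣ) _ e2).1).1
      rwa [mul_sub, mul_sub, q2, p2] at this
    obtain ⟨u, v, a, b, c, d, f⟩ := L _ e3 1 (Or.inr rfl)
    rw [add_sub_cancel] at f
    refine ⟨u * (τ ^ l * (ρ (w⁻¹ : _ˣ) * σ ^ k)),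
      mul_mem (oS u a) (mul_mem (pow_mem tS l) (mul_mem (rS _) (pow_mem sS k))),
      τ ^ k * (ρ w * (σ ^ l * v)),
      mul_mem (pow_mem tS k) (mul_mem (rS _) (mul_mem (pow_mem sS l) (oS v b))), ?_, ?_, ?_⟩
    · simp only [mul_assoc, p1', p2', q2, c]
    · simp only [mul_assoc]
      rw [← mul_assoc v, d, one_mul, p1', q1, p2]
    · have := congrArg (fun z => τ ^ k * (ρ w * (σ ^ l * z))) f
      simpa only [mul_assoc, p1', p2', q1] using this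

end Pool.Agent.H.MP_a7dadb_al
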