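import Pool.Agent.H.MP_a7dadb_al.B

namespace Pool.Agent.H.MP_a7dadb_al

open PowerSeries

abbrev F := ZMod 2
abbrev Λ := F⟦X⟧

noncomputable def K (N : ℕ) : Ideal (Λ × Λ) :=
  Ideal.prod (Ideal.span {X ^ (N + 1)}) (Ideal.span {X ^ (2 * N + 3)})

def V (N : ℕ) := (Λ × Λ) ⧸ K N

noncomputable instance (N : ℕ) : CommRing (V N) := inferInstanceAs (CommRing ((Λ × Λ) ⧸ K N))
noncomputable instance (N : ℕ) : Algebra Λ (V N) := inferInstanceAs (Algebra Λ ((Λ × Λ) ⧸ K N))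
noncomputable instance (N : ℕ) : Algebra F (V N) := inferInstanceAs (Algebra F ((Λ × Λ) ⧸ K N))
instance (N : ℕ) : IsScalarTower F Λ (V N) :=
  inferInstanceAs (IsScalarTower F Λ ((Λ × Λ) ⧸ K N))

noncomputable def mk (N : ℕ) (p q : Λ) : V N := Ideal.Quotient.mk (K N) (p, q)

variable {N : ℕ}

lemma mk_zero {p q : Λ} : mk N p q = 0 ↔ X ^ (N + 1) ∣ p ∧ X ^ (2 * N + 3) ∣ q := by
  refine Ideal.Quotient.eq_zero_iff_mem.trans ?_
  rw [K, Ideal.mem_prod, Ideal.mem_span_singleton, Ideal.mem_span_singleton]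

lemma mk_sur (x : V N) : ∃ p q, x = mk N p q := by
  obtain ⟨⟨p, q⟩, rfl⟩ := Ideal.Quotient.mk_surjective x
  exact ⟨p, q, rfl⟩

lemma mk_add (p q p' q' : Λ) : mk N p q + mk N p' q' = mk N (p + p') (q + q') := rfl
lemma mk_sub (p q p' q' : Λ) : mk N p q - mk N p' q' = mk N (p - p') (q - q') := rfl
lemma mk_mul (p q p' q' : Λ) : mk N p q * mk N p' q' = mk N (p * p') (q * q') := rfl
lemma mk_smul (h p q : Λ) : h • mk N p q = mk N (h * p) (h * q) := rfl
lemma mk_smulF (c : F) (p q : Λ) : c • mk N p q = mk N (c • p) (c • q) := rfl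

noncomputable def ev (N : ℕ) : V N →ₗ[F] F :=
  (Submodule.liftQ ((K N).restrictScalars F)
    ((coeff N).comp (LinearMap.fst F Λ Λ) + (coeff (2 * N + 2)).comp (LinearMap.snd F Λ Λ)) (by
      rintro ⟨p, q⟩ h
      have : mk N p q = 0 := Ideal.Quotient.eq_zero_iff_mem.2 h
      rw [mk_zero, X_pow_dvd_iff, X_pow_dvd_iff] at this
      simp [this.1 N (by omega), this.2 (2 * N + 2) (by omega)])).comp
    (Submodule.Quotient.restrictScalarsEquiv F (K N)).symm.toLinearMap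

lemma ev_mk (p q : Λ) : ev N (mk N p q) = coeff N p + coeff (2 * N + 2) q := rfl

lemma nd {x : V N} (J : ℕ) (hx : (X ^ J : Λ) • x = 0)
    (h1 : ∀ i < J, ev N (mk N (X ^ i) 0 * x) = 0) (h2 : ∀ i < J, ev N (mk N 0 (X ^ i) * x) = 0) :
    x = 0 := by
  have k : ∀ (i : ℕ) (y : V N), J ≤ i → ev N (((X ^ i : Λ) • y) * x) = 0 := fun i y hi => by
    obtain ⟨d, rfl⟩ := Nat.exists_eq_add_of_le hi
    rw [smul_mul_assoc, ← mul_smul_comm, pow_add, mul_comm (X ^ J : Λ), mul_smul, hx]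
    simp
  have h1' : ∀ i, ev N (mk N (X ^ i) 0 * x) = 0 := fun i => by
    rcases lt_or_ge i J with h | h
    · exact h1 i h
    · simpa [mk_smul] using k i (mk N 1 0) h
  have h2' : ∀ i, ev N (mk N 0 (X ^ i) * x) = 0 := fun i => by
    rcases lt_or_ge i J with h | h
    · exact h2 i h
    · simpa [mk_smul] using k i (mk N 0 1) h
  obtain ⟨p, q, rfl⟩ := mk_sur x
  rw [mk_zero, X_pow_dvd_iff, X_pow_dvd_iff]
  constructor
  · intro m hm
    have := h1' (N - m)
    rw [mk_mul, ev_mk, coeff_X_pow_mul', if_pos (by omega), show N - (N - m) = m by omega] at this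
    simpa using this
  · intro m hm
    have := h2' (2 * N + 2 - m)
    rw [mk_mul, ev_mk, coeff_X_pow_mul', if_pos (by omega),
      show 2 * N + 2 - (2 * N + 2 - m) = m by omega] at this
    simpa using this

lemma nil (x : V N) : (X ^ (2 * N + 3) : Λ) • x = 0 := by
  obtain ⟨p, q, rfl⟩ := mk_sur x
  rw [mk_smul, mk_zero]
  exact ⟨Dvd.dvd.mul_right (pow_dvd_pow _ (by omega)) _, Dvd.intro _ rfl⟩

lemma nd' {x : V N} (h : ∀ y, ev N (y * x) = 0) : x = 0 :=
  nd _ (nil x) (fun _ _ => h _) (fun _ _ => h _)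

instance : Finite (V N) := by
  refine Finite.of_injective (fun x : V N => fun i : Fin (2 * N + 3) =>
    (ev N (mk N (X ^ i.1) 0 * x), ev N (mk N 0 (X ^ i.1) * x))) fun x y h => ?_
  rw [← sub_eq_zero]
  refine nd _ (nil _) (fun i hi => ?_) (fun i hi => ?_)
  · rw [mul_sub, map_sub, sub_eq_zero]
    exact congrArg Prod.fst (congrFun h ⟨i, hi⟩)
  · rw [mul_sub, map_sub, sub_eq_zero]
    exact congrArg Prod.snd (congrFun h ⟨i, hi⟩)

instance : FiniteDimensional F (V N) := Module.Finite.of_finite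

noncomputable def f (N : ℕ) : V N := mk N 1 0
noncomputable def G (N : ℕ) : V N := mk N 0 1
noncomputable def g (N : ℕ) : V N := mk N 1 (X ^ (N + 1))
noncomputable def m (N : ℕ) : V N := mk N 0 (X ^ N)

lemma dv {i j : ℕ} {p : Λ} (h : X ^ (i + j) ∣ X ^ i * p) : X ^ j ∣ p := by
  rw [pow_add] at h
  exact (mul_dvd_mul_iff_left (pow_ne_zero i X_ne_zero)).1 h

lemma F2 {j : ℕ} (hj : j ≤ N) {x : V N} (h : (X ^ j : Λ) • x = 0) : ∃ z, x = (X : Λ) • z := by
  obtain ⟨p, q, rfl⟩ := mk_sur x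
  rw [mk_smul, mk_zero] at h
  obtain ⟨p, rfl⟩ := dv (j := 1) ((pow_dvd_pow _ (by omega)).trans h.1)
  obtain ⟨q, rfl⟩ := dv (j := 1) ((pow_dvd_pow _ (by omega)).trans h.2)
  exact ⟨mk N p q, by rw [mk_smul, pow_one]⟩

lemma F3 {x : V N} (h : (X ^ (N + 1) : Λ) • x = 0) : ∃ (c : F) (z : V N),
    x = c • f N + (X : Λ) • z := by
  obtain ⟨p, q, rfl⟩ := mk_sur x
  rw [mk_smul, mk_zero] at h
  obtain ⟨q, rfl⟩ := dv (j := 1) ((pow_dvd_pow _ (by omega)).trans h.2)
  obtain ⟨p', hp⟩ : (X : Λ) ∣ p - C (constantCoeff p) := by rw [X_dvd_iff]; simp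
  refine ⟨constantCoeff p, mk N p' q, ?_⟩
  rw [f, mk_smulF, mk_smul, mk_add, ← hp, smul_eq_C_mul]
  simp

lemma f_nil : (X ^ (N + 1) : Λ) • f N = 0 := by simp [f, mk_smul, mk_zero]

lemma fail (w : Module.End F (V N))
    (hv : ∀ k ≥ 1, ∀ x, (X ^ k : Λ) • (w ^ k) ((X ^ k : Λ) • x) = (X ^ k : Λ) • x)
    (h1 : (X ^ (N + 2) : Λ) • w (f N) ≠ 0) (v : V N)
    (h2 : ev N (f N * w ((X ^ (N + 2) : Λ) • v)) ≠ 0) : False := by
  have hw : ∀ x, (X : Λ) • w ((X : Λ) • x) = (X : Λ) • x := by simpa using hv 1 le_rfl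
  obtain ⟨κ, hκ⟩ : ∃ κ, κ = (X ^ (N + 1) : Λ) • v - w ((X ^ (N + 2) : Λ) • v) := ⟨_, rfl⟩
  have a1 : (X : Λ) • κ = 0 := by
    rw [hκ, smul_sub, pow_succ' X (N + 1), mul_smul, hw, sub_self]
  have a2 : ev N (f N * κ) ≠ 0 := by
    rw [hκ, mul_sub, mul_smul_comm, ← smul_mul_assoc, f_nil, zero_mul, zero_sub, map_neg]
    exact neg_ne_zero.2 h2
  have a3 : (X ^ (N + 2) : Λ) • w ((w ^ N) κ) = 0 := by
    rw [← Module.End.mul_apply, ← pow_succ', hκ, map_sub, smul_sub, ← Module.End.mul_apply,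
      ← pow_succ, hv (N + 2) (by omega), pow_succ' X (N + 1), mul_smul, hv (N + 1) (by omega),
      mul_smul, sub_self]
  have a4 : ∀ i ≤ N, (X ^ i : Λ) • (w ^ i) κ = κ := fun i hi => by
    induction i with
    | zero => simp
    | succ i ih =>
      have ih := ih (by omega)
      obtain ⟨z, hz⟩ := F2 hi (x := (w ^ i) κ) (by rw [pow_succ', mul_smul, ih, a1])
      rw [pow_succ' w, Module.End.mul_apply, hz, pow_succ, mul_smul, hw, ← hz, ih]
  have a5 := a4 N le_rfl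
  have a6 : (X ^ (N + 1) : Λ) • (w ^ N) κ = 0 := by rw [pow_succ', mul_smul, a5, a1]
  obtain ⟨c, z, hz⟩ := F3 a6
  rw [hz] at a3 a5 a6
  have a7 : ev N (f N * κ) = c := by
    rw [← a5, smul_add, smul_smul, ← pow_succ, mul_add, mul_smul_comm (X ^ (N + 1) : Λ),
      ← smul_mul_assoc, f_nil, zero_mul, add_zero, smul_comm, mul_smul_comm, map_smul]
    simp [f, mk_smul, mk_mul, ev_mk]
  rw [smul_add, smul_comm, f_nil, smul_zero, zero_add] at a6
  rw [map_add, smul_add, pow_succ X (N + 1), mul_smul _ _ (w (_ • z)), hw, a6, add_zero,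
    ← pow_succ, map_smul, smul_comm] at a3
  exact h1 ((smul_eq_zero.1 a3).resolve_left (a7 ▸ a2))

lemma bad {y : V N} {u v : Λ} {J : ℕ} (hJ : J ≤ N + 2)
    (h : (X ^ J : Λ) • (y - u • g N - v • G N) = 0) (h' : ¬ X ^ (N + 1) ∣ v - X ^ N) :
    (X ^ (N + 2) : Λ) • (y - m N) ≠ 0 := by
  intro h0
  apply h'
  obtain ⟨d, hd⟩ := Nat.exists_eq_add_of_le' hJ
  have h1 : (X ^ (N + 2) : Λ) • (y - u • g N - v • G N) = 0 := by
    rw [hd, pow_add, mul_smul, h, smul_zero]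
  have h2 : (X ^ (N + 2) : Λ) • (u • g N + v • G N - m N) = 0 := by
    rw [show u • g N + v • G N - m N = (y - m N) - (y - u • g N - v • G N) by abel, smul_sub, h0,
      h1, sub_zero]
  simp only [g, G, m, mk_smul, mk_add, mk_sub, mk_zero] at h2
  have h3 := dv (i := N + 2) (j := N + 1) (by
    rw [show N + 2 + (N + 1) = 2 * N + 3 by omega]; exact h2.2)
  rw [mul_one, add_sub_assoc] at h3
  exact (dvd_add_right (Dvd.intro_left _ rfl)).1 h3

lemma f_eq : f N = g N - (X : Λ) • m N := by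
  simp [f, g, m, mk_smul, mk_sub, pow_succ']

lemma fail2 (w : Module.End F (V N))
    (hv : ∀ k ≥ 1, ∀ x, (X ^ k : Λ) • (w ^ k) ((X ^ k : Λ) • x) = (X ^ k : Λ) • x)
    (h1 : (X ^ (N + 2) : Λ) • (w (g N) - m N) ≠ 0) (y : V N)
    (hy : ∀ x, ev N (g N * w x) = ev N (y * x))
    (h2 : (X ^ (N + 2) : Λ) • (y - m N) ≠ 0) : False := by
  have hw : ∀ x, (X : Λ) • w ((X : Λ) • x) = (X : Λ) • x := by simpa using hv 1 le_rfl
  obtain ⟨v, hv'⟩ : ∃ v, ev N (v * ((X ^ (N + 2) : Λ) • (y - m N))) ≠ 0 := by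
    by_contra hc
    push Not at hc
    exact h2 (nd' hc)
  refine fail w hv ?_ v ?_
  · rw [f_eq, map_sub, smul_sub, pow_succ X (N + 1), mul_smul _ _ (w (_ • m N)), hw, ← mul_smul,
      ← smul_sub]
    exact h1
  · rw [f_eq, sub_mul, map_sub, hy, smul_mul_assoc, ← mul_smul_comm, pow_succ' X (N + 1), mul_smul,
      hw, ← map_sub, ← sub_mul, ← mul_smul, ← pow_succ', mul_smul_comm, mul_comm,
      ← mul_smul_comm]
    exact hv'

lemma few (v : Λ) : {N | X ^ (N + 1) ∣ v - X ^ N}.Finite := by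
  apply Set.Subsingleton.finite
  have k : ∀ a b : ℕ, a < b → X ^ (a + 1) ∣ v - X ^ a → X ^ (b + 1) ∣ v - X ^ b → False := by
    intro a b h h1 h2
    have h3 : (X : Λ) ^ (a + 1) ∣ X ^ a := by
      have := dvd_sub (dvd_add ((pow_dvd_pow X (by omega : a + 1 ≤ b + 1)).trans h2)
        (pow_dvd_pow X (by omega : a + 1 ≤ b))) h1
      simpa using this
    have := X_pow_dvd_iff.1 h3 a (by omega)
    simp at this
  intro a ha b hb
  rcases lt_trichotomy a b with h | h | h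
  · exact (k a b h ha hb).elim
  · exact h
  · exact (k b a h hb ha).elim

/-- rank one operator -/
noncomputable def t1 (x y : V N) : Module.End F (V N) :=
  ((ev N).comp (LinearMap.mul F (V N) y)).smulRight x

lemma t1_ap (x y z : V N) : t1 x y z = ev N (y * z) • x := rfl

noncomputable def sg (N : ℕ) : Module.End F (V N) :=
  Algebra.lsmul F F (V N) (X : Λ) + t1 (g N) (g N) + t1 (G N) (G N)

lemma sg_ap (x : V N) :
    sg N x = (X : Λ) • x + ev N (g N * x) • g N + ev N (G N * x) • G N := rfl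

lemma sg_adj (x y : V N) : ev N (y * sg N x) = ev N (sg N y * x) := by
  simp only [sg_ap, mul_add, add_mul, mul_smul_comm, smul_mul_assoc, map_add, map_smul,
    smul_eq_mul, mul_comm y]
  ring

noncomputable def b (N j : ℕ) : V N := mk N (X ^ (N - j)) 0
noncomputable def B (N j : ℕ) : V N := mk N 0 (X ^ (2 * N + 2 - j))

lemma b_nil {j : ℕ} : (X ^ (j + 1) : Λ) • b N j = 0 := by
  rw [b, mk_smul, mk_zero, ← pow_add]
  exact ⟨pow_dvd_pow _ (by omega), by simp⟩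

lemma B_nil {j : ℕ} : (X ^ (j + 1) : Λ) • B N j = 0 := by
  rw [B, mk_smul, mk_zero, ← pow_add]
  exact ⟨by simp, pow_dvd_pow _ (by omega)⟩

lemma ev_b {j : ℕ} (hj : j ≤ N) (u v : Λ) : ev N (b N j * (u • g N + v • G N)) = coeff j u := by
  simp only [b, g, G, mk_smul, mk_add, mk_mul, ev_mk]
  rw [coeff_X_pow_mul', if_pos (by omega), show N - (N - j) = j by omega]
  simp

lemma ev_B {j : ℕ} (hj : j ≤ N) (u v : Λ) : ev N (B N j * (u • g N + v • G N)) = coeff j v := by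
  simp only [B, g, G, mk_smul, mk_add, mk_mul, ev_mk]
  rw [coeff_X_pow_mul', if_pos (by omega), show 2 * N + 2 - (2 * N + 2 - j) = j by omega, map_add,
    coeff_mul_X_pow', if_neg (by omega)]
  simp

lemma low {i j : ℕ} (h : i + j ≤ N + 1) {x y : V N} (hx : (X ^ i : Λ) • x = 0)
    (hy : (X ^ j : Λ) • y = 0) : ev N (x * y) = 0 := by
  obtain ⟨p, q, rfl⟩ := mk_sur x
  rw [mk_smul, mk_zero] at hx
  obtain ⟨p, rfl⟩ := dv (j := j) ((pow_dvd_pow _ h).trans hx.1)
  obtain ⟨q, rfl⟩ := dv (j := j) ((pow_dvd_pow _ (by omega)).trans hx.2)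
  rw [← mk_smul, smul_mul_assoc, ← mul_smul_comm, hy, mul_zero, map_zero]

lemma sg_inj : Function.Injective (sg N) := by
  rw [injective_iff_map_eq_zero]
  intro x hx
  have e : ∀ y : V N, (X : Λ) • y = 0 →
      ev N (g N * x) * ev N (y * g N) + ev N (G N * x) * ev N (y * G N) = 0 := fun y hy => by
    have := congrArg (fun z => ev N (y * z)) hx
    have k : y * (X : Λ) • x = 0 := by rw [mul_smul_comm, ← smul_mul_assoc, hy, zero_mul]
    simpa only [sg_ap, mul_add, k, zero_add, mul_smul_comm (ev N _), map_add, map_smul,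
      smul_eq_mul, mul_zero, map_zero] using this
  have b0 : (X : Λ) • b N 0 = 0 := by simpa using b_nil (N := N) (j := 0)
  have B0 : (X : Λ) • B N 0 = 0 := by simpa using B_nil (N := N) (j := 0)
  have e1 := e _ b0
  have e2 := e _ B0
  have c1 := ev_b (Nat.zero_le N) 1 0
  have c2 := ev_b (Nat.zero_le N) 0 1
  have c3 := ev_B (Nat.zero_le N) 1 0
  have c4 := ev_B (Nat.zero_le N) 0 1
  simp at c1 c2 c3 c4
  simp [c1, c2, c3, c4] at e1 e2
  rw [sg_ap, e1, e2, zero_smul, zero_smul, add_zero, add_zero] at hx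
  refine nd 1 (by simpa using hx) (fun i hi => ?_) (fun i hi => ?_)
  · obtain rfl : i = 0 := by omega
    show ev N (mk N (X ^ 0) 0 * x) = 0
    rw [pow_zero, ← f, f_eq, sub_mul, smul_mul_assoc, ← mul_smul_comm, hx, mul_zero, sub_zero, e1]
  · obtain rfl : i = 0 := by omega
    rw [pow_zero]; exact e2

end Pool.Agent.H.MP_a7dadb_al
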