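import Pool.Agent.H.MP_a7dadb_al.C

namespace Pool.Agent.H.MP_a7dadb_al

open PowerSeries Filter

noncomputable abbrev 𝒰 : Ultrafilter ℕ := hyperfilter ℕ

lemma big (n : ℕ) : ∀ᶠ N in 𝒰, n ≤ N :=
  (eventually_ge_atTop n).filter_mono (Nat.hyperfilter_le_atTop)

lemma ex_lim {α : Type*} [Finite α] (c : ℕ → α) : ∃ a, ∀ᶠ N in 𝒰, c N = a := by
  obtain ⟨a, ha⟩ := Ultrafilter.eq_pure_of_finite (𝒰.map c)
  refine ⟨a, ?_⟩
  have : {a} ∈ 𝒰.map c := by rw [ha]; simp
  exact this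

noncomputable def ul (c : ℕ → F) : F := (ex_lim c).choose
lemma ul_ev (c : ℕ → F) : ∀ᶠ N in 𝒰, c N = ul c := (ex_lim c).choose_spec
lemma ul_eq {c : ℕ → F} {a : F} (h : ∀ᶠ N in 𝒰, c N = a) : ul c = a := by
  obtain ⟨N, h1, h2⟩ := ((ul_ev c).and h).exists
  rw [← h1, h2]

abbrev W := ∀ N, V N
abbrev P := ∀ N, Module.End F (V N)

def XX : Submodule F W where
  carrier := {x | ∃ (u v : Λ) (J : ℕ), ∀ᶠ N in 𝒰, (X ^ J : Λ) • (x N - u • g N - v • G N) = 0}
  add_mem' := by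
    rintro x y ⟨u, v, J, h⟩ ⟨u', v', J', h'⟩
    refine ⟨u + u', v + v', J + J', ?_⟩
    filter_upwards [h, h'] with N h h'
    rw [show (x + y) N - (u + u') • g N - (v + v') • G N =
      (x N - u • g N - v • G N) + (y N - u' • g N - v' • G N) by
        simp only [add_smul, Pi.add_apply]; abel, smul_add]
    nth_rewrite 1 [add_comm J J']
    rw [pow_add, pow_add, mul_smul, mul_smul, h, h', smul_zero, smul_zero, add_zero]
  zero_mem' := ⟨0, 0, 0, by simp⟩
  smul_mem' := by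
    rintro c x ⟨u, v, J, h⟩
    refine ⟨c • u, c • v, J, ?_⟩
    filter_upwards [h] with N h
    rw [Pi.smul_apply, smul_assoc, smul_assoc, ← smul_sub, ← smul_sub, smul_comm, h, smul_zero]

lemma XX_congr {x y : W} (hx : x ∈ XX) (h : ∀ᶠ N in 𝒰, x N = y N) : y ∈ XX := by
  obtain ⟨u, v, J, hx⟩ := hx
  refine ⟨u, v, J, ?_⟩
  filter_upwards [h, hx] with N h hx
  rwa [← h]

lemma XX_smul {x : W} (hx : x ∈ XX) (h : Λ) : (fun N => h • x N) ∈ XX := by
  obtain ⟨u, v, J, hx⟩ := hx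
  refine ⟨h * u, h * v, J, ?_⟩
  filter_upwards [hx] with N hx
  rw [mul_smul, mul_smul, ← smul_sub, ← smul_sub, smul_comm, hx, smul_zero]

lemma g_mem : g ∈ XX := ⟨1, 0, 0, by simp⟩
lemma G_mem : G ∈ XX := ⟨0, 1, 0, by simp⟩
lemma b_mem (j : ℕ) : (fun N => b N j) ∈ XX := ⟨0, 0, j + 1, by simp [b_nil]⟩
lemma B_mem (j : ℕ) : (fun N => B N j) ∈ XX := ⟨0, 0, j + 1, by simp [B_nil]⟩

def I0 : Ideal P where
  carrier := {r | ∀ᶠ N in 𝒰, r N = 0}
  add_mem' := fun {a b} ha hb => by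
    filter_upwards [ha, hb] with N ha hb
    rw [Pi.add_apply, ha, hb, add_zero]
  zero_mem' := by simp
  smul_mem' := fun c a ha => by
    filter_upwards [ha] with N ha
    rw [smul_eq_mul, Pi.mul_apply, ha, mul_zero]

instance : I0.IsTwoSided := ⟨fun c ha => by
  filter_upwards [ha] with N ha
  rw [Pi.mul_apply, ha, zero_mul]⟩

abbrev U := P ⧸ I0
noncomputable abbrev π : P →+* U := Ideal.Quotient.mk I0

lemma pi_eq {a b : P} : π a = π b ↔ ∀ᶠ N in 𝒰, a N = b N := by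
  rw [Ideal.Quotient.eq]
  show (∀ᶠ N in 𝒰, (a - b) N = 0) ↔ _
  simp only [Pi.sub_apply, sub_eq_zero]

lemma pi_smul (c : F) (a : P) : π (c • a) = c • π a := rfl

noncomputable def tt (x y : W) : P := fun N => t1 (x N) (y N)

noncomputable def T : XX →ₗ[F] XX →ₗ[F] U :=
  LinearMap.mk₂ F (fun x y => π (tt x y))
    (fun x x' y => by
      rw [← map_add]; congr 1; ext N z; simp [tt, t1_ap])
    (fun c x y => by
      rw [← pi_smul]; congr 1; ext N z; simp [tt, t1_ap, smul_comm c])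
    (fun x y y' => by
      rw [← map_add]; congr 1; ext N z; simp [tt, t1_ap, add_mul, add_smul])
    (fun c x y => by
      rw [← pi_smul]; congr 1; ext N z; simp [tt, t1_ap, mul_smul])

noncomputable def Bf : XX →ₗ[F] XX →ₗ[F] F :=
  LinearMap.mk₂ F (fun x y => ul fun N => ev N (x.1 N * y.1 N))
    (fun x x' y => ul_eq (by
      filter_upwards [ul_ev fun N => ev N (x.1 N * y.1 N), ul_ev fun N => ev N (x'.1 N * y.1 N)]
        with N h h'
      rw [← h, ← h']; simp [add_mul]))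
    (fun c x y => ul_eq (by
      filter_upwards [ul_ev fun N => ev N (x.1 N * y.1 N)] with N h
      rw [← h]; simp))
    (fun x y y' => ul_eq (by
      filter_upwards [ul_ev fun N => ev N (x.1 N * y.1 N), ul_ev fun N => ev N (x.1 N * y'.1 N)]
        with N h h'
      rw [← h, ← h']; simp [mul_add]))
    (fun c x y => ul_eq (by
      filter_upwards [ul_ev fun N => ev N (x.1 N * y.1 N)] with N h
      rw [← h]; simp))

lemma T_ap (x y : XX) : T x y = π (tt x y) := rfl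
lemma Bf_ap (x y : XX) : Bf x y = ul fun N => ev N (x.1 N * y.1 N) := rfl

lemma hT (x y x' y' : XX) : T x y * T x' y' = Bf y x' • T x y' := by
  rw [T_ap, T_ap, T_ap, ← map_mul, ← pi_smul, pi_eq, Bf_ap]
  filter_upwards [ul_ev fun N => ev N (y.1 N * x'.1 N)] with N h
  rw [← h]
  ext z
  simp [tt, t1_ap, smul_smul, mul_comm]

lemma ne1 : ∀ c : F, c ≠ 0 → c = 1 := by decide

lemma nondeg (x : XX) : (∀ᶠ N in 𝒰, x.1 N = 0) ∨ ∃ y : XX, ∀ᶠ N in 𝒰, ev N (y.1 N * x.1 N) = 1 := by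
  obtain ⟨x, u, v, J, hx⟩ := x
  by_cases hu : ∃ j, coeff j u ≠ 0
  · obtain ⟨j, hj⟩ := hu
    refine Or.inr ⟨⟨_, b_mem j⟩, ?_⟩
    filter_upwards [hx, big (j + J)] with N hx hN
    have := low (by omega) (b_nil (N := N) (j := j)) hx
    rw [sub_sub, mul_sub, map_sub, ev_b (by omega), sub_eq_zero] at this
    exact this.trans (ne1 _ hj)
  by_cases hv : ∃ j, coeff j v ≠ 0
  · obtain ⟨j, hj⟩ := hv
    refine Or.inr ⟨⟨_, B_mem j⟩, ?_⟩
    filter_upwards [hx, big (j + J)] with N hx hN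
    have := low (by omega) (B_nil (N := N) (j := j)) hx
    rw [sub_sub, mul_sub, map_sub, ev_B (by omega), sub_eq_zero] at this
    exact this.trans (ne1 _ hj)
  push Not at hu hv
  obtain rfl : u = 0 := PowerSeries.ext hu
  obtain rfl : v = 0 := PowerSeries.ext hv
  simp only [zero_smul, sub_zero] at hx
  by_cases h1 : ∃ i : Fin J, ∀ᶠ N in 𝒰, ev N ((X ^ i.1 : Λ) • g N * x N) = 1
  · obtain ⟨i, hi⟩ := h1
    exact Or.inr ⟨⟨_, XX_smul g_mem _⟩, hi⟩
  by_cases h2 : ∃ i : Fin J, ∀ᶠ N in 𝒰, ev N ((X ^ i.1 : Λ) • G N * x N) = 1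
  · obtain ⟨i, hi⟩ := h2
    exact Or.inr ⟨⟨_, XX_smul G_mem _⟩, hi⟩
  left
  simp only [not_exists, ← Ultrafilter.eventually_not, ← eventually_all] at h1 h2
  filter_upwards [hx, h1, h2, big J] with N hx h1 h2 hN
  refine nd J hx (fun i hi => ?_) (fun i hi => ?_)
  · by_contra hc
    apply h1 ⟨i, hi⟩
    rw [← ne1 _ hc]
    obtain ⟨d, hd⟩ := Nat.exists_eq_add_of_le' (show J ≤ i + (N + 1) by omega)
    have : (X ^ i : Λ) • g N = mk N (X ^ i) 0 + (X ^ d * X ^ J : Λ) • G N := by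
      rw [← pow_add, ← hd]
      simp [g, G, mk_smul, mk_add, pow_add]
    rw [this, add_mul, smul_mul_assoc, ← mul_smul_comm, mul_smul, hx, smul_zero, mul_zero,
      add_zero]
  · by_contra hc
    apply h2 ⟨i, hi⟩
    rw [← ne1 _ hc]
    simp [G, mk_smul]

lemma n1 (x : XX) : (∀ y, T x y = 0) ∨ ∃ y, Bf y x = 1 := by
  rcases nondeg x with h | ⟨y, h⟩
  · refine Or.inl fun y => (pi_eq (b := 0)).2 ?_
    filter_upwards [h] with N h
    ext z
    simp [tt, t1_ap, h]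
  · exact Or.inr ⟨y, ul_eq h⟩

lemma n2 (x : XX) : (∀ y, T y x = 0) ∨ ∃ y, Bf x y = 1 := by
  rcases nondeg x with h | ⟨y, h⟩
  · refine Or.inl fun y => (pi_eq (b := 0)).2 ?_
    filter_upwards [h] with N h
    ext z
    simp [tt, t1_ap, h]
  · exact Or.inr ⟨y, ul_eq (by simpa only [mul_comm] using h)⟩

noncomputable def JJ : AddSubgroup U := (J T).toAddSubgroup

lemma nm_of {r : U} (h : ∀ x y, r * T x y ∈ J T ∧ T x y * r ∈ J T) : r ∈ Nm JJ := by
  intro j hj
  change j ∈ J T at hj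
  change r * j ∈ J T ∧ j * r ∈ J T
  induction hj using Submodule.span_induction with
  | mem u hu => obtain ⟨x, y, rfl⟩ := hu; exact h x y
  | zero => simp
  | add u v _ _ iu iv =>
    rw [mul_add, add_mul]; exact ⟨add_mem iu.1 iv.1, add_mem iu.2 iv.2⟩
  | smul c u _ iu =>
    rw [mul_smul_comm, smul_mul_assoc]
    exact ⟨Submodule.smul_mem _ _ iu.1, Submodule.smul_mem _ _ iu.2⟩

lemma hJ (j : U) (hj : j ∈ JJ) : j ∈ Nm JJ := by
  intro k hk
  have : ∀ j ∈ JJ, ∀ k ∈ JJ, j * k ∈ JJ := fun j hj k hk => by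
    change j ∈ J T at hj
    change j * k ∈ J T
    induction hj using Submodule.span_induction with
    | mem u hu =>
      obtain ⟨x, y, rfl⟩ := hu
      exact (nm_of (r := T x y) (fun x' y' => by
        rw [hT, hT]
        exact ⟨Submodule.smul_mem _ _ (T_mem _ _), Submodule.smul_mem _ _ (T_mem _ _)⟩) k hk).1
    | zero => simp
    | add u v _ _ iu iv => rw [add_mul]; exact add_mem iu iv
    | smul c u _ iu => rw [smul_mul_assoc]; exact Submodule.smul_mem _ _ iu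
  exact ⟨this j hj k hk, this k hk j hj⟩

lemma nm_adj {r : P} (h1 : ∀ N x y, ev N (y * r N x) = ev N (r N y * x))
    (h2 : ∀ x ∈ XX, (fun N => r N (x N)) ∈ XX) : π r ∈ Nm JJ := by
  refine nm_of fun x y => ⟨?_, ?_⟩
  · have : π r * T x y = T ⟨_, h2 _ x.2⟩ y := by
      rw [T_ap, T_ap, ← map_mul]; congr 1; ext N z; simp [tt, t1_ap]
    rw [this]; exact T_mem _ _
  · have : T x y * π r = T x ⟨_, h2 _ y.2⟩ := by
      rw [T_ap, T_ap, ← map_mul]; congr 1; ext N z; simp [tt, t1_ap, h1]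
    rw [this]; exact T_mem _ _

noncomputable def ρ0 : Λ →+* P :=
  RingHom.pi fun N => (Algebra.lsmul F F (V N) : Λ →ₐ[F] Module.End F (V N)).toRingHom

lemma ρ0_ap (h : Λ) (N : ℕ) (x : V N) : ρ0 h N x = h • x := rfl

noncomputable def ρ : Λ →+* U := π.comp ρ0

lemma hρ (h : Λ) : ρ h ∈ Nm JJ :=
  nm_adj (fun N x y => by simp [ρ0_ap]) fun x hx => XX_smul hx h

lemma sg_unit (N : ℕ) : IsUnit (sg N) :=
  (LinearMap.isUnit_iff_ker_eq_bot _).2 (LinearMap.ker_eq_bot.2 sg_inj)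

noncomputable def ta : P := fun N => ((sg_unit N).unit⁻¹ : _ˣ)
lemma st (N : ℕ) : sg N * ta N = 1 := (sg_unit N).mul_val_inv
lemma ts (N : ℕ) : ta N * sg N = 1 := (sg_unit N).val_inv_mul
lemma st' (N : ℕ) (x : V N) : sg N (ta N x) = x := by rw [← Module.End.mul_apply, st]; rfl

lemma ta_nm : π ta ∈ Nm JJ := by
  refine nm_adj (fun N x y => ?_) ?_
  · conv_lhs => rw [← st' N y]
    rw [← sg_adj, st']
  · rintro x ⟨u, v, J, hx⟩
    obtain ⟨c, hc⟩ := ex_lim fun N => ev N (g N * ta N (x N))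
    obtain ⟨d, hd⟩ := ex_lim fun N => ev N (G N * ta N (x N))
    have key : ∀ᶠ N in 𝒰, (X : Λ) • ta N (x N) =
        (u - C c) • g N + (v - C d) • G N + (x N - u • g N - v • G N) := by
      filter_upwards [hc, hd] with N hc hd
      have := st' N (x N)
      rw [sg_ap, hc, hd] at this
      have e : ∀ (c : F) (z : V N), (C c : Λ) • z = c • z := fun c z => algebraMap_smul Λ c z
      rw [sub_smul, sub_smul, e, e, add_assoc, ← eq_sub_iff_add_eq] at *
      rw [this]; abel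
    obtain ⟨N, h1, h2, h3⟩ := (key.and (hx.and (big J))).exists
    have b0 : (X : Λ) • b N 0 = 0 := by simpa using b_nil (N := N) (j := 0)
    have B0 : (X : Λ) • B N 0 = 0 := by simpa using B_nil (N := N) (j := 0)
    obtain ⟨u', hu⟩ : (X : Λ) ∣ u - C c := by
      have := congrArg (fun z => ev N (b N 0 * z)) h1
      simp only [mul_smul_comm, ← smul_mul_assoc, b0, zero_mul, map_zero] at this
      rw [mul_add, map_add, ev_b (Nat.zero_le _), low (by omega) b_nil h2, add_zero] at this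
      rw [X_dvd_iff, ← coeff_zero_eq_constantCoeff_apply, ← this]
    obtain ⟨v', hv⟩ : (X : Λ) ∣ v - C d := by
      have := congrArg (fun z => ev N (B N 0 * z)) h1
      simp only [mul_smul_comm, ← smul_mul_assoc, B0, zero_mul, map_zero] at this
      rw [mul_add, map_add, ev_B (Nat.zero_le _), low (by omega) B_nil h2, add_zero] at this
      rw [X_dvd_iff, ← coeff_zero_eq_constantCoeff_apply, ← this]
    refine ⟨u', v', J + 1, ?_⟩
    filter_upwards [key, hx] with N key hx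
    rw [pow_succ, mul_smul, smul_sub X, smul_sub X, key, hu, hv, mul_smul, mul_smul, ← hx]
    congr 1
    abel

lemma sg_J : π sg - ρ X ∈ JJ := by
  have : π sg - ρ X = T ⟨g, g_mem⟩ ⟨g, g_mem⟩ + T ⟨G, G_mem⟩ ⟨G, G_mem⟩ := by
    rw [T_ap, T_ap, ← map_add, sub_eq_iff_eq_add', ρ, RingHom.comp_apply, ← map_add]
    congr 1
    ext N z
    simp [sg_ap, tt, t1_ap, ρ0_ap, add_assoc]
  rw [this]
  exact add_mem (T_mem _ _) (T_mem _ _)

lemma J_prop {j : U} (hj : j ∈ JJ) : ∀ r, π r = j → ∀ z : W, (fun N => r N (z N)) ∈ XX ∧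
    ∃ y ∈ XX, ∀ᶠ N in 𝒰, ∀ x, ev N (z N * r N x) = ev N (y N * x) := by
  change j ∈ J T at hj
  induction hj using Submodule.span_induction with
  | mem u hu =>
    obtain ⟨x, y, rfl⟩ := hu
    intro r hr z
    rw [T_ap, pi_eq] at hr
    obtain ⟨c, hc⟩ := ex_lim fun N => ev N (y.1 N * z N)
    obtain ⟨d, hd⟩ := ex_lim fun N => ev N (z N * x.1 N)
    refine ⟨XX_congr (XX.smul_mem c x.2) ?_, d • y.1, XX.smul_mem d y.2, ?_⟩
    · filter_upwards [hr, hc] with N hr hc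
      rw [hr, tt, t1_ap, hc, Pi.smul_apply]
    · filter_upwards [hr, hd] with N hr hd w
      rw [hr, tt, t1_ap, ← hd]
      simp [mul_comm]
  | zero =>
    intro r hr z
    have hr := (pi_eq (b := 0)).1 hr
    refine ⟨XX_congr XX.zero_mem ?_, 0, XX.zero_mem, ?_⟩
    · filter_upwards [hr] with N hr
      simp [hr]
    · filter_upwards [hr] with N hr w
      simp [hr]
  | add u v _ _ iu iv =>
    intro r hr z
    obtain ⟨s, rfl⟩ := Ideal.Quotient.mk_surjective u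
    obtain ⟨a1, y1, m1, b1⟩ := iu s rfl z
    obtain ⟨a2, y2, m2, b2⟩ := iv (r - s) (by rw [map_sub, hr, add_sub_cancel_left]) z
    refine ⟨XX_congr (add_mem a1 a2) (by simp), y1 + y2, add_mem m1 m2, ?_⟩
    filter_upwards [b1, b2] with N b1 b2 x
    rw [Pi.add_apply, add_mul, map_add, ← b1, ← b2]
    simp [mul_sub]
  | smul c u _ iu =>
    intro r hr z
    obtain ⟨s, rfl⟩ := Ideal.Quotient.mk_surjective u
    obtain ⟨a1, y1, m1, b1⟩ := iu s rfl z
    rw [← pi_smul, pi_eq] at hr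
    refine ⟨XX_congr (XX.smul_mem c a1) ?_, c • y1, XX.smul_mem c m1, ?_⟩
    · filter_upwards [hr] with N hr
      simp [hr]
    · filter_upwards [hr, b1] with N hr b1 x
      simp [hr, b1]

noncomputable def R : Subring P := (SS JJ ρ hρ).comap π

lemma R_ur (r : P) (hr : r ∈ R) : ∃ u ∈ R, ∃ v ∈ R, u * v = 1 ∧ v * u = 1 ∧ r * u * r = r := by
  classical
  obtain ⟨u, hu, v, hv, h1, h2, h3⟩ := lemB JJ ρ hρ hJ (π sg) (π ta)
    (by rw [← map_mul, ← map_one π]; congr 1; exact funext st)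
    (by rw [← map_mul, ← map_one π]; congr 1; exact funext ts) sg_J ta_nm
    (fun j hj c hc => lemA hT n1 n2 hj c hc) (π r) hr
  obtain ⟨u, rfl⟩ := Ideal.Quotient.mk_surjective u
  obtain ⟨v, rfl⟩ := Ideal.Quotient.mk_surjective v
  rw [← map_mul, ← map_one π, pi_eq] at h1 h2
  rw [← map_mul, ← map_mul, pi_eq] at h3
  choose u' v' a1 a2 a3 using fun N => end_ur (r N)
  let p : ℕ → Prop := fun N => (u * v) N = (1 : P) N ∧ (v * u) N = (1 : P) N ∧ (r * u * r) N = r N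
  have hp : ∀ᶠ N in 𝒰, p N := h1.and (h2.and h3)
  refine ⟨fun N => if p N then u N else u' N, ?_, fun N => if p N then v N else v' N, ?_, ?_, ?_, ?_⟩
  · have : π (fun N => if p N then u N else u' N) = π u :=
      pi_eq.2 (hp.mono fun N h => if_pos h)
    show π _ ∈ SS JJ ρ hρ
    rwa [this]
  · have : π (fun N => if p N then v N else v' N) = π v :=
      pi_eq.2 (hp.mono fun N h => if_pos h)
    show π _ ∈ SS JJ ρ hρ
    rwa [this]
  all_goals
    funext N
    simp only [Pi.mul_apply]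
    split_ifs with h
  exacts [h.1, a1 N, h.2.1, a2 N, h.2.2, a3 N]

lemma a_mem : ρ0 X ∈ R := ⟨hρ X, 0, X, by simp [ρ]⟩

lemma R_fail (w : P) (hw : w ∈ R)
    (hv : ∀ k ≥ 1, ρ0 X ^ k * w ^ k * ρ0 X ^ k = ρ0 X ^ k) : False := by
  have hN : π w ∈ Nm JJ := hw.1
  have bg : ∀ N, ev N (b N 0 * g N) = 1 := fun N => by simpa using ev_b (Nat.zero_le N) 1 0
  obtain ⟨u, v, J, h1⟩ := (J_prop (hN _ (T_mem ⟨g, g_mem⟩ ⟨_, b_mem 0⟩)).1
    (w * tt g fun N => b N 0) (map_mul _ _ _) g).1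
  obtain ⟨y, ⟨u', v', J', h2⟩, h3⟩ := (J_prop (hN _ (T_mem ⟨_, b_mem 0⟩ ⟨g, g_mem⟩)).2
    ((tt (fun N => b N 0) g) * w) (map_mul _ _ _) g).2
  have h4 := (few v).compl_mem_hyperfilter
  have h5 := (few v').compl_mem_hyperfilter
  have : ∀ᶠ (N : ℕ) in 𝒰, False := by
    filter_upwards [h1, h2, h3, h4, h5, big J, big J'] with N h1 h2 h3 h4 h5 h6 h7
    simp only [Pi.mul_apply, Module.End.mul_apply, tt, t1_ap, bg, one_smul] at h1 h3
    refine fail2 (w N) (fun k hk x => ?_) (bad (by omega) h1 h4) (y N) (fun x => ?_)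
      (bad (by omega) h2 h5)
    · have := hv k hk
      rw [← map_pow] at this
      exact congrArg (fun z : P => z N x) this
    · rw [← h3, mul_smul_comm, map_smul, mul_comm (g N) (b N 0), bg, smul_eq_mul, mul_one]
  exact this.exists.elim fun _ h => h

end Pool.Agent.H.MP_a7dadb_al
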